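import Pool.Agent.MWGR.StmtsE

/-!
# Row DMA of the table mwgr: the numbers `d` with `Dm n d`
-/

set_option autoImplicit false

namespace Pool.Agent.MWGR.H14

open Pool.Agent.Helper14_MV Pool.Agent.Helper2_MV Pool.Agent.MVO Pool.Agent.MWL Pool.Agent.MWS
  Pool.Agent.MWH Pool.Agent.MWGR

theorem dma_left {n : ℕ} {η : FIC} (h : BG n (RR η)) (m : ℕ) :
    RR η (X (n + m) ++ 1 :: (X n ++ [2, 1])) (X (n + m + n) ++ 1 :: (X n ++ [2, 1])) := by
  have hp := h.pos
  have h1 := h.it (X (n + m - 1)) [] [1] (X (n - 1) ++ [2, 1]) 0 (by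
    intro a ha
    simp at ha
    subst ha
    simp [List.count_append, List.count_replicate])
  have e1 : X (n + m - 1) ++ 0 :: ([] ++ ([1] ++ 0 :: (X (n - 1) ++ [2, 1]))) =
      X (n + m) ++ 1 :: (X n ++ [2, 1]) := by
    have e3 : X (n + m) = X (n + m - 1) ++ [0] := by
      rw [← List.replicate_succ' (n := n + m - 1)]; congr 1; omega
    have e4 : X n = 0 :: X (n - 1) := by
      rw [← List.replicate_succ]; congr 1; omega
    rw [e3, e4]
    simp
  have e2 : X (n + m - 1) ++ 0 :: ([] ++ (List.replicate n 0 ++ ([1] ++ 0 :: (X (n - 1) ++ [2, 1])))) =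
      X (n + m + n) ++ 1 :: (X n ++ [2, 1]) := by
    have e3 : X (n + m + n) = X (n + m - 1) ++ ([0] ++ X n) := by
      rw [← List.append_assoc, ← List.replicate_succ' (n := n + m - 1), ← List.replicate_add]
      congr 1; omega
    have e4 : (0 :: X (n - 1) : List ℕ) = X n := by
      rw [← List.replicate_succ]; congr 1; omega
    rw [e3]
    conv_rhs => rw [← e4]
    have e5 : List.replicate n 0 = 0 :: X (n - 1) := e4.symm
    rw [e5]
    simp
  rw [e1, e2] at h1
  exact h1

theorem dma_right {n : ℕ} {η : FIC} (h : BG n (RR η)) (m : ℕ) :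
    RR η (X n ++ 1 :: (X (n + m) ++ [2, 1])) (X n ++ 1 :: (X (n + m + n) ++ [2, 1])) := by
  have hp := h.pos
  have h1 := h.it (X (n - 1)) [1] [] (X (n + m - 1) ++ [2, 1]) 0 (by
    intro a ha
    simp at ha
    subst ha
    simp [List.count_append, List.count_replicate])
  have e1 : X (n - 1) ++ 0 :: ([1] ++ ([] ++ 0 :: (X (n + m - 1) ++ [2, 1]))) =
      X n ++ 1 :: (X (n + m) ++ [2, 1]) := by
    have e3 : X n = X (n - 1) ++ [0] := by
      rw [← List.replicate_succ' (n := n - 1)]; congr 1; omega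
    have e4 : X (n + m) = 0 :: X (n + m - 1) := by
      rw [← List.replicate_succ]; congr 1; omega
    rw [e3, e4]
    simp
  have e2 : X (n - 1) ++ 0 :: ([1] ++ (List.replicate n 0 ++ ([] ++ 0 :: (X (n + m - 1) ++ [2, 1])))) =
      X n ++ 1 :: (X (n + m + n) ++ [2, 1]) := by
    have e3 : (X (n - 1) ++ [0] : List ℕ) = X n := by
      rw [← List.replicate_succ' (n := n - 1)]; congr 1; omega
    have e4 : X (n + m + n) = List.replicate n 0 ++ 0 :: X (n + m - 1) := by
      rw [← List.replicate_succ, ← List.replicate_add]; congr 1; omega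
    rw [e4]
    have e6 : X (n - 1) ++ 0 :: ([1] ++ (List.replicate n 0 ++ ([] ++ 0 :: (X (n + m - 1) ++ [2, 1])))) =
      (X (n - 1) ++ [0]) ++ 1 :: ((List.replicate n 0 ++ 0 :: X (n + m - 1)) ++ [2, 1]) := by simp
    rw [e6, e3]
  rw [e1, e2] at h1
  exact h1

theorem dma_per {n : ℕ} {η : FIC} (h : BG n (RR η)) (d : ℕ) :
    Dm n (d + n) (RR η) ↔ Dm n d (RR η) := by
  have hl := dma_left h d
  have hr := dma_right h d
  have e : n + (d + n) = n + d + n := by omega
  unfold Dm
  rw [e]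
  constructor
  · intro h1
    exact η.trans hl (η.trans h1 hr.symm)
  · intro h1
    exact η.trans hl.symm (η.trans h1 hr)

theorem dma_per' {n : ℕ} {η : FIC} (h : BG n (RR η)) (d k : ℕ) :
    Dm n (d + k * n) (RR η) ↔ Dm n d (RR η) := by
  induction k with
  | zero => simp
  | succ k ih =>
    rw [← ih, ← dma_per h (d + k * n)]
    have : d + k * n + n = d + (k + 1) * n := by ring
    rw [this]

theorem dma_zero {n : ℕ} {η : FIC} : Dm n 0 (RR η) := by
  unfold Dm
  exact RR.refl _

theorem dma_add {n : ℕ} {η : FIC} (d d' : ℕ) (h : Dm n d (RR η)) (h' : Dm n d' (RR η)) :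
    Dm n (d + d') (RR η) := by
  unfold Dm at *
  have h1 : RR η (X d' ++ (X (n + d) ++ 1 :: (X n ++ [2, 1])))
      (X d' ++ (X n ++ 1 :: (X (n + d) ++ [2, 1]))) := (RR.refl (X d')).append h
  have h2 := h'.sub (fun i => if i = 2 then X d ++ [2] else [i])
  have e0 : ∀ r : ℕ, (X r).flatMap (fun i => if i = 2 then X d ++ [2] else [i]) = X r := by
    intro r
    induction r with
    | zero => rfl
    | succ r ih => simp [X, List.replicate_succ] at ih ⊢; exact ih
  have ex : ∀ r : ℕ, X (r + d) = X r ++ X d := fun r => List.replicate_add r d 0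
  have e1 : (X (n + d') ++ 1 :: (X n ++ [2, 1])).flatMap
      (fun i => if i = 2 then X d ++ [2] else [i]) =
      X (n + d') ++ 1 :: (X (n + d) ++ [2, 1]) := by
    rw [List.flatMap_append, e0, List.flatMap_cons, List.flatMap_append, e0, ex]
    simp [-List.replicate_append_replicate]
  have e2 : (X n ++ 1 :: (X (n + d') ++ [2, 1])).flatMap
      (fun i => if i = 2 then X d ++ [2] else [i]) =
      X n ++ 1 :: (X (n + d' + d) ++ [2, 1]) := by
    rw [List.flatMap_append, e0, List.flatMap_cons, List.flatMap_append, e0, ex]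
    simp [-List.replicate_append_replicate]
  rw [e1, e2] at h2
  rw [← List.append_assoc, ← List.append_assoc, ← List.replicate_add, ← List.replicate_add] at h1
  have e3 : d' + (n + d) = n + (d + d') := by omega
  have e4 : d' + n = n + d' := by omega
  have e5 : n + d' + d = n + (d + d') := by omega
  rw [e3, e4] at h1
  rw [e5] at h2
  exact η.trans h1 h2

theorem dma_mul {n : ℕ} {η : FIC} (d k : ℕ) (h : Dm n d (RR η)) : Dm n (d * k) (RR η) := by
  induction k with
  | zero => exact dma_zero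
  | succ k ih =>
    rw [Nat.mul_succ]
    exact dma_add _ _ ih h

theorem dma : DmaStmt := by
  classical
  intro n η h
  have hp := h.pos
  have hn : Dm n n (RR η) := by
    have h1 := (dma_per h 0).2 dma_zero
    simpa using h1
  have hex : ∃ g, 1 ≤ g ∧ Dm n g (RR η) := ⟨n, hp, hn⟩
  obtain ⟨g, hg1, hg2, hgm⟩ : ∃ g, 1 ≤ g ∧ Dm n g (RR η) ∧ ∀ r, r < g → ¬ (1 ≤ r ∧ Dm n r (RR η)) :=
    ⟨Nat.find hex, (Nat.find_spec hex).1, (Nat.find_spec hex).2, fun r hr => Nat.find_min hex hr⟩
  have hdvd : ∀ d, Dm n d (RR η) → g ∣ d := by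
    intro d hd
    have h1 : Dm n (d % g) (RR η) := by
      have h2 : Dm n (d + g * ((n - 1) * (d / g))) (RR η) := dma_add _ _ hd (dma_mul _ _ hg2)
      have e : d + g * ((n - 1) * (d / g)) = d % g + (g * (d / g)) * n := by
        obtain ⟨m, rfl⟩ : ∃ m, n = m + 1 := ⟨n - 1, by omega⟩
        have h3 := Nat.mod_add_div d g
        calc d + g * ((m + 1 - 1) * (d / g)) = (d % g + g * (d / g)) + g * (m * (d / g)) := by
              rw [h3]; simp
          _ = d % g + (g * (d / g)) * (m + 1) := by ring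
      rw [e] at h2
      exact (dma_per' h _ _).1 h2
    by_contra hnd
    have h2 : 1 ≤ d % g := by
      rcases Nat.eq_zero_or_pos (d % g) with h3 | h3
      · exact absurd (Nat.dvd_of_mod_eq_zero h3) hnd
      · exact h3
    exact hgm _ (Nat.mod_lt _ hg1) ⟨h2, h1⟩
  have hiff : ∀ d, Dm n d (RR η) ↔ g ∣ d := by
    intro d
    refine ⟨hdvd d, ?_⟩
    rintro ⟨k, rfl⟩
    exact dma_mul _ _ hg2
  refine ⟨⟨g, hdvd n hn, hiff⟩, ?_⟩
  intro d hd
  rw [hiff]
  rw [Nat.dvd_iff_prime_pow_dvd_dvd]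
  intro p k hprime hk
  rcases Nat.eq_zero_or_pos k with rfl | hkpos
  · simp
  have hpn : p ∣ n := (dvd_pow_self p (by omega)).trans (hk.trans (hdvd n hn))
  have hmem : p ∈ n.primeFactors := by
    rw [Nat.mem_primeFactors]; exact ⟨hprime, hpn, by omega⟩
  have h1 := (hiff _).1 (hd p hmem)
  have h2 : p ^ k ∣ d * (n / p ^ n.factorization p) := hk.trans h1
  have h3 : Nat.Coprime (p ^ k) (n / p ^ n.factorization p) :=
    Nat.Coprime.pow_left _ (Nat.coprime_ordCompl hprime (by omega))
  exact h3.dvd_of_dvd_mul_right h2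

end Pool.Agent.MWGR.H14
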